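import Pool.Agent.Helper40.CN.Spec

/-!
Part CL of the blueprint CN: the climbing principle.
-/

set_option autoImplicit false

namespace Pool.Agent.Helper71.CN

open Pool.Agent.Helper40.CN

universe u

section

variable {N : Type u} [Group N]

/-- `Δ ⊔ ⟨z⟩` is normal if `z` is central modulo the normal subgroup `Δ` -/
theorem sup_zpowers_normal (Δ : Subgroup N) (hΔ : Δ.Normal) (z : N)
    (hz : ∀ g, z * g * z⁻¹ * g⁻¹ ∈ Δ) : (Δ ⊔ Subgroup.zpowers z).Normal := by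
  constructor
  intro x hx g
  have hzc : ∀ g, g * z * g⁻¹ ∈ Δ ⊔ Subgroup.zpowers z := by
    intro g
    have h1 := hz g
    have h2 : (z * g * z⁻¹ * g⁻¹)⁻¹ * z = g * z * g⁻¹ := by group
    rw [← h2]
    exact mul_mem (Subgroup.mem_sup_left (inv_mem h1))
      (Subgroup.mem_sup_right (Subgroup.mem_zpowers z))
  have h3 : Δ ⊔ Subgroup.zpowers z ≤ (Δ ⊔ Subgroup.zpowers z).comap (MulAut.conj g).toMonoidHom := by
    rw [sup_le_iff]
    constructor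
    · intro y hy
      exact Subgroup.mem_sup_left (hΔ.conj_mem y hy g)
    · rw [Subgroup.zpowers_le]
      exact hzc g
  exact h3 hx

/-- a central element modulo `Δ` -/
theorem exists_central (Δ : Subgroup N) [Δ.Normal] (hn : Group.IsNilpotent (N ⧸ Δ)) (hΔ : Δ ≠ ⊤) :
    ∃ z, z ∉ Δ ∧ ∀ g, z * g * z⁻¹ * g⁻¹ ∈ Δ := by
  have : Nontrivial (N ⧸ Δ) := QuotientGroup.nontrivial_iff.2 hΔ
  have h1 := Group.IsNilpotent.center_ne_bot (G := N ⧸ Δ)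
  obtain ⟨c', hc'⟩ := Subgroup.ne_bot_iff_exists_ne_one.1 h1
  obtain ⟨c, hc⟩ := c'
  have hc1 : c ≠ 1 := fun h => hc' (Subtype.ext h)
  obtain ⟨z, hz⟩ := QuotientGroup.mk_surjective c
  refine ⟨z, fun h => hc1 ?_, fun g => ?_⟩
  · rw [← hz]
    exact (QuotientGroup.eq_one_iff z).2 h
  · rw [← QuotientGroup.eq_one_iff]
    have h2 := Subgroup.mem_center_iff.1 hc (g : N ⧸ Δ)
    rw [← hz] at h2
    have h3 : ((z * g * z⁻¹ * g⁻¹ : N) : N ⧸ Δ) = (z : N ⧸ Δ) * g * (z : N ⧸ Δ)⁻¹ * (g : N ⧸ Δ)⁻¹ :=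
      rfl
    rw [h3, ← h2]
    group

end

/-- **Part CL.** -/
theorem cl (hMAX : S_MAX.{u}) : S_CL.{u} := by
  intro N _ _ A _ hnil P hPA hstep
  have := hnil
  have : Group.FG (N ⧸ A) := QuotientGroup.fg A
  -- chains have a largest element
  have hchain : ∀ c : Set (Subgroup N), c ⊆ {Δ : Subgroup N | Δ.Normal ∧ A ≤ Δ ∧ P Δ} → _root_.IsChain (· ≤ ·) c →
      c.Nonempty → ∃ Δ ∈ c, ∀ Δ' ∈ c, Δ' ≤ Δ := by
    intro c hc hch hne
    have hdir : DirectedOn (· ≤ ·) c := hch.directedOn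
    obtain ⟨F, hF⟩ := hMAX (N ⧸ A) hnil ((sSup c).map (QuotientGroup.mk' A))
    have hfin : ∀ F' : Finset (N ⧸ A), (F' : Set (N ⧸ A)) ⊆ (sSup c).map (QuotientGroup.mk' A) →
        ∃ Δ ∈ c, (F' : Set (N ⧸ A)) ⊆ Δ.map (QuotientGroup.mk' A) := by
      classical
      intro F'
      induction F' using Finset.induction_on with
      | empty =>
        intro _
        obtain ⟨Δ, hΔ⟩ := hne
        exact ⟨Δ, hΔ, by simp⟩
      | insert a s _ ih =>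
        intro h
        obtain ⟨Δ, hΔ, hs⟩ := ih fun x hx => h (by simp [Finset.mem_coe.1 hx])
        obtain ⟨x, hx, hxa⟩ := h (show a ∈ ((insert a s : Finset (N ⧸ A)) : Set (N ⧸ A)) by simp)
        obtain ⟨Δ', hΔ', hx'⟩ := (Subgroup.mem_sSup_of_directedOn hne hdir).1 hx
        obtain ⟨Δ'', hΔ'', h1, h2⟩ := hdir Δ hΔ Δ' hΔ'
        refine ⟨Δ'', hΔ'', ?_⟩
        intro y hy
        rcases Finset.mem_insert.1 (Finset.mem_coe.1 hy) with rfl | hy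
        · exact ⟨x, h2 hx', hxa⟩
        · obtain ⟨t, ht, hty⟩ := hs (Finset.mem_coe.2 hy)
          exact ⟨t, h1 ht, hty⟩
    obtain ⟨Δ, hΔ, hs⟩ := hfin F (by rw [← hF]; exact Subgroup.subset_closure)
    refine ⟨Δ, hΔ, fun Δ' hΔ' => ?_⟩
    have h1 : (sSup c).map (QuotientGroup.mk' A) ≤ Δ.map (QuotientGroup.mk' A) := by
      rw [← hF, Subgroup.closure_le]
      exact hs
    intro x hx
    have h2 : x ∈ sSup c := Subgroup.mem_sSup_of_mem hΔ' hx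
    obtain ⟨y, hy, hyx⟩ := h1 (Subgroup.mem_map_of_mem _ h2)
    have h3 : y⁻¹ * x ∈ A := QuotientGroup.eq.1 hyx
    have h4 : x = y * (y⁻¹ * x) := by group
    rw [h4]
    exact mul_mem hy ((hc hΔ).2.1 h3)
  obtain ⟨Δ, hAΔ, hmax⟩ := zorn_le_nonempty₀ {Δ : Subgroup N | Δ.Normal ∧ A ≤ Δ ∧ P Δ}
    (fun c hc hch y hy => by
      obtain ⟨Δ, hΔ, h⟩ := hchain c hc hch ⟨y, hy⟩
      exact ⟨Δ, hc hΔ, h⟩) A (⟨inferInstance, le_rfl, hPA⟩ : A.Normal ∧ A ≤ A ∧ P A)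
  obtain ⟨hΔn, hΔA, hΔP⟩ := hmax.prop
  have := hΔn
  by_cases htop : Δ = ⊤
  · rw [← htop]; exact hΔP
  exfalso
  have hnil' : Group.IsNilpotent (N ⧸ Δ) := by
    refine Group.nilpotent_of_surjective (QuotientGroup.map A Δ (MonoidHom.id N) hΔA) ?_
    intro q
    obtain ⟨x, rfl⟩ := QuotientGroup.mk_surjective q
    exact ⟨(x : N ⧸ A), rfl⟩
  obtain ⟨z, hz, hzc⟩ := exists_central Δ hnil' htop
  have h1 : Δ ⊔ Subgroup.zpowers z ∈ {Δ : Subgroup N | Δ.Normal ∧ A ≤ Δ ∧ P Δ} :=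
    ⟨sup_zpowers_normal Δ hΔn z hzc, hΔA.trans le_sup_left, hstep Δ hΔn hΔA hΔP z hzc⟩
  exact hz (hmax.le_of_ge h1 le_sup_left (Subgroup.mem_sup_right (Subgroup.mem_zpowers z)))

end Pool.Agent.Helper71.CN
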