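import Pool.Agent.Helper40.CN.Spec

/-!
Part FIT of the blueprint CN: Fitting's lemma for one element.
-/

set_option autoImplicit false

namespace Pool.Agent.Helper71.CN

open Pool.Agent.Helper40.CN

universe u

section

variable {N : Type u} [Group N] (A : Subgroup N) [A.Normal]
  (hA : ∀ a ∈ A, ∀ b ∈ A, a * b = b * a) (z : N)
  (hz : ∀ g, ∀ a ∈ A, (z * g * z⁻¹ * g⁻¹) * a = a * (z * g * z⁻¹ * g⁻¹))

/-- commutation with `z` -/
def cz (z : N) : N → N := fun a => z * a * z⁻¹ * a⁻¹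

theorem cz_one : cz z 1 = 1 := by unfold cz; group

include hA in
theorem cz_mem {a : N} (ha : a ∈ A) : cz z a ∈ A := by
  have h1 : z * a * z⁻¹ ∈ A := Subgroup.Normal.conj_mem inferInstance a ha z
  exact mul_mem h1 (inv_mem ha)

include hA in
theorem cz_mul {a b : N} (ha : a ∈ A) (hb : b ∈ A) : cz z (a * b) = cz z a * cz z b := by
  have hza : z * a * z⁻¹ ∈ A := Subgroup.Normal.conj_mem inferInstance a ha z
  have hzb : z * b * z⁻¹ ∈ A := Subgroup.Normal.conj_mem inferInstance b hb z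
  unfold cz
  have e1 : z * (a * b) * z⁻¹ * (a * b)⁻¹ = (z * a * z⁻¹) * ((z * b * z⁻¹) * b⁻¹ * a⁻¹) := by group
  have e2 : z * b * z⁻¹ * b⁻¹ * a⁻¹ = a⁻¹ * (z * b * z⁻¹ * b⁻¹) :=
    hA _ (mul_mem hzb (inv_mem hb)) _ (inv_mem ha)
  rw [e1, e2]
  group

include hA in
theorem iter_mem {a : N} (ha : a ∈ A) (n : ℕ) : (cz z)^[n] a ∈ A := by
  induction n with
  | zero => exact ha
  | succ n ih =>
    rw [Function.iterate_succ_apply']
    exact cz_mem A hA z ih

theorem iter_one (n : ℕ) : (cz z)^[n] 1 = 1 := by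
  induction n with
  | zero => rfl
  | succ n ih => rw [Function.iterate_succ_apply', ih, cz_one]

include hA in
theorem iter_mul {a b : N} (ha : a ∈ A) (hb : b ∈ A) (n : ℕ) :
    (cz z)^[n] (a * b) = (cz z)^[n] a * (cz z)^[n] b := by
  induction n with
  | zero => rfl
  | succ n ih =>
    rw [Function.iterate_succ_apply', Function.iterate_succ_apply', Function.iterate_succ_apply', ih,
      cz_mul A hA z (iter_mem A hA z ha n) (iter_mem A hA z hb n)]

include hA in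
theorem iter_inv {a : N} (ha : a ∈ A) (n : ℕ) : (cz z)^[n] a⁻¹ = ((cz z)^[n] a)⁻¹ := by
  rw [eq_inv_iff_mul_eq_one, ← iter_mul A hA z (inv_mem ha) ha, inv_mul_cancel, iter_one]

include hA hz in
theorem cz_conj {a : N} (ha : a ∈ A) (g : N) : cz z (g * a * g⁻¹) = g * cz z a * g⁻¹ := by
  have hza : z * a * z⁻¹ ∈ A := Subgroup.Normal.conj_mem inferInstance a ha z
  have hg : g * (z * a * z⁻¹) * g⁻¹ ∈ A := Subgroup.Normal.conj_mem inferInstance _ hza g
  have h1 := hz g _ hg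
  have h2 : z * g * z⁻¹ * g⁻¹ * (g * (z * a * z⁻¹) * g⁻¹) = (z * g * a * g⁻¹ * z⁻¹) *
      (z * g * z⁻¹ * g⁻¹) := by group
  rw [h2] at h1
  have h3 : z * g * a * g⁻¹ * z⁻¹ * (z * g * z⁻¹ * g⁻¹) =
      g * (z * a * z⁻¹) * g⁻¹ * (z * g * z⁻¹ * g⁻¹) := h1
  have h4 := mul_right_cancel h3
  unfold cz
  calc z * (g * a * g⁻¹) * z⁻¹ * (g * a * g⁻¹)⁻¹ = (z * g * a * g⁻¹ * z⁻¹) * (g * a⁻¹ * g⁻¹) := by
        group
    _ = g * (z * a * z⁻¹) * g⁻¹ * (g * a⁻¹ * g⁻¹) := by rw [h4]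
    _ = g * (z * a * z⁻¹ * a⁻¹) * g⁻¹ := by group

include hA hz in
theorem iter_conj {a : N} (ha : a ∈ A) (g : N) (n : ℕ) :
    (cz z)^[n] (g * a * g⁻¹) = g * (cz z)^[n] a * g⁻¹ := by
  induction n with
  | zero => rfl
  | succ n ih =>
    rw [Function.iterate_succ_apply', Function.iterate_succ_apply', ih,
      cz_conj A hA z hz (iter_mem A hA z ha n)]

/-- the union of the kernels -/
def KU : Subgroup N where
  carrier := {a | a ∈ A ∧ ∃ n, (cz z)^[n] a = 1}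
  one_mem' := ⟨one_mem _, 0, rfl⟩
  mul_mem' := by
    rintro a b ⟨ha, n, hn⟩ ⟨hb, m, hm⟩
    refine ⟨mul_mem ha hb, m + n, ?_⟩
    rw [iter_mul A hA z ha hb, Function.iterate_add_apply, hn, iter_one, add_comm m n,
      Function.iterate_add_apply, hm, iter_one, one_mul]
  inv_mem' := by
    rintro a ⟨ha, n, hn⟩
    exact ⟨inv_mem ha, n, by rw [iter_inv A hA z ha, hn, inv_one]⟩

/-- one kernel -/
def KN (n : ℕ) : Subgroup N where
  carrier := {a | a ∈ A ∧ (cz z)^[n] a = 1}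
  one_mem' := ⟨one_mem _, iter_one z n⟩
  mul_mem' := by
    rintro a b ⟨ha, hn⟩ ⟨hb, hm⟩
    exact ⟨mul_mem ha hb, by rw [iter_mul A hA z ha hb, hn, hm, one_mul]⟩
  inv_mem' := by
    rintro a ⟨ha, hn⟩
    exact ⟨inv_mem ha, by rw [iter_inv A hA z ha, hn, inv_one]⟩

/-- the image -/
def IM (n : ℕ) : Subgroup N where
  carrier := {x | ∃ a ∈ A, (cz z)^[n] a = x}
  one_mem' := ⟨1, one_mem _, iter_one z n⟩
  mul_mem' := by
    rintro _ _ ⟨a, ha, rfl⟩ ⟨b, hb, rfl⟩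
    exact ⟨a * b, mul_mem ha hb, iter_mul A hA z ha hb n⟩
  inv_mem' := by
    rintro _ ⟨a, ha, rfl⟩
    exact ⟨a⁻¹, inv_mem ha, iter_inv A hA z ha n⟩

end

/-- **Part FIT.** -/
theorem fit : S_FIT.{u} := by
  intro N _ A B _ hmax hA hB hess z hz
  have hKU : (KU A hA z).Normal := by
    constructor
    rintro a ⟨ha, n, hn⟩ g
    refine ⟨Subgroup.Normal.conj_mem inferInstance a ha g, n, ?_⟩
    rw [iter_conj A hA z hz ha g n, hn]; group
  have hKN : ∀ n, (KN A hA z n).Normal := by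
    intro n
    constructor
    rintro a ⟨ha, hn⟩ g
    refine ⟨Subgroup.Normal.conj_mem inferInstance a ha g, ?_⟩
    rw [iter_conj A hA z hz ha g n, hn]; group
  have hIM : ∀ n, (IM A hA z n).Normal := by
    intro n
    constructor
    rintro _ ⟨a, ha, rfl⟩ g
    exact ⟨g * a * g⁻¹, Subgroup.Normal.conj_mem inferInstance a ha g,
      iter_conj A hA z hz ha g n⟩
  obtain ⟨F, hF, hFK⟩ := hmax _ hKU
  have hFsub : F ⊆ KU A hA z := by
    rw [hFK]; exact Subgroup.subset_normalClosure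
  -- a common exponent
  obtain ⟨n₀, hn₀⟩ : ∃ n, ∀ a ∈ F, (cz z)^[n] a = 1 := by
    have hex : ∀ a : N, ∃ n, a ∈ F → (cz z)^[n] a = 1 := by
      intro a
      by_cases h : a ∈ F
      · obtain ⟨_, n, hn⟩ := hFsub h
        exact ⟨n, fun _ => hn⟩
      · exact ⟨0, fun h' => absurd h' h⟩
    choose ν hν using hex
    refine ⟨hF.toFinset.sup ν, fun a ha => ?_⟩
    have h1 : ν a ≤ hF.toFinset.sup ν := Finset.le_sup (f := ν) (hF.mem_toFinset.2 ha)
    obtain ⟨m, hm⟩ := Nat.exists_eq_add_of_le h1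
    rw [hm, add_comm, Function.iterate_add_apply, hν a ha, iter_one]
  have hle : KU A hA z ≤ KN A hA z n₀ := by
    rw [hFK]
    have := hKN n₀
    exact Subgroup.normalClosure_le_normal fun a ha => ⟨(hFsub ha).1, hn₀ a ha⟩
  have hI : IM A hA z n₀ = ⊥ := by
    apply hess _ (hIM n₀)
    rw [eq_bot_iff]
    rintro x ⟨⟨a, ha, hax⟩, hxB⟩
    rw [Subgroup.mem_bot]
    have h1 : cz z x = 1 := by
      have h2 := Subgroup.mem_center_iff.1 (hB hxB) z
      unfold cz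
      rw [h2]; group
    have h2 : a ∈ KU A hA z := ⟨ha, n₀ + 1, by rw [Function.iterate_succ_apply', hax, h1]⟩
    have h3 := (hle h2).2
    rw [← hax]; exact h3
  refine ⟨n₀, fun a ha => ?_⟩
  have h1 : (cz z)^[n₀] a ∈ IM A hA z n₀ := ⟨a, ha, rfl⟩
  rw [hI, Subgroup.mem_bot] at h1
  exact h1

end Pool.Agent.Helper71.CN
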