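import Pool.Agent.Helper40.CN.Spec

/-!
Part NF of the blueprint CN.
-/

set_option autoImplicit false

namespace Pool.Agent.Helper71.CN

open Pool.Agent.Helper40.CN
open scoped commutatorElement Pointwise

universe u

section

variable {N : Type u} [Group N]

/-- central elements have `q`-power order -/
theorem center_qpow (q : ℕ) [hq : Fact q.Prime] (B : Subgroup N) (hBf : Finite B)
    (hBp : IsPGroup q B) (hess : ∀ K : Subgroup N, K.Normal → K ⊓ B = ⊥ → K = ⊥) (z : N)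
    (hz : z ∈ Subgroup.center N) : ∃ a : ℕ, z ^ q ^ a = 1 := by
  have hnorm : ∀ y ∈ Subgroup.center N, (Subgroup.zpowers y).Normal := by
    intro y hy
    constructor
    intro x hx g
    have h1 : x ∈ Subgroup.center N := (Subgroup.zpowers_le.2 hy) hx
    have h2 := Subgroup.mem_center_iff.1 h1 g
    rw [h2, mul_assoc, mul_inv_cancel, mul_one]
    exact hx
  have hBtors : ∀ x ∈ B, ∃ k : ℕ, x ^ q ^ k = 1 := by
    intro x hx
    obtain ⟨k, hk⟩ := hBp ⟨x, hx⟩
    exact ⟨k, congrArg Subtype.val hk⟩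
  -- finite order
  have hfin : IsOfFinOrder z := by
    by_contra hinf
    have h1 : Subgroup.zpowers z = ⊥ := by
      apply hess _ (hnorm z hz)
      rw [eq_bot_iff]
      rintro x ⟨⟨n, hn⟩, hxB⟩
      rw [Subgroup.mem_bot]
      obtain ⟨k, hk⟩ := hBtors x hxB
      have hn' : z ^ n = x := hn
      by_contra hx1
      have hn0 : n ≠ 0 := by
        rintro rfl
        apply hx1
        rw [← hn']; simp
      apply hinf
      rw [isOfFinOrder_iff_zpow_eq_one]
      refine ⟨n * (q ^ k : ℕ), mul_ne_zero hn0 (by exact_mod_cast (pow_pos hq.out.pos k).ne'), ?_⟩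
      rw [zpow_mul, hn', zpow_natCast, hk]
    rw [Subgroup.zpowers_eq_bot] at h1
    exact hinf (h1 ▸ IsOfFinOrder.one)
  obtain ⟨a, m, hqm, hm⟩ := Nat.exists_eq_pow_mul_and_not_dvd hfin.orderOf_pos.ne' q hq.out.ne_one
  refine ⟨a, ?_⟩
  have hy : z ^ q ^ a ∈ Subgroup.center N := pow_mem hz _
  have hym : (z ^ q ^ a) ^ m = 1 := by
    rw [← pow_mul, ← hm, pow_orderOf_eq_one]
  have h1 : Subgroup.zpowers (z ^ q ^ a) = ⊥ := by
    apply hess _ (hnorm _ hy)
    rw [eq_bot_iff]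
    rintro x ⟨⟨n, hn⟩, hxB⟩
    rw [Subgroup.mem_bot]
    have hn' : (z ^ q ^ a) ^ n = x := hn
    obtain ⟨k, hk⟩ := hBtors x hxB
    have hxm : x ^ m = 1 := by
      rw [← hn', ← zpow_natCast, ← zpow_mul, mul_comm, zpow_mul, zpow_natCast, hym, one_zpow]
    have h2 : orderOf x ∣ q ^ k := orderOf_dvd_of_pow_eq_one hk
    have h3 : orderOf x ∣ m := orderOf_dvd_of_pow_eq_one hxm
    have h4 : Nat.Coprime (q ^ k) m := by
      apply Nat.Coprime.pow_left
      exact (Nat.Prime.coprime_iff_not_dvd hq.out).2 hqm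
    have h5 : orderOf x ∣ 1 := by
      rw [← h4]
      exact Nat.dvd_gcd h2 h3
    exact orderOf_eq_one_iff.1 (Nat.dvd_one.1 h5)
  exact Subgroup.zpowers_eq_bot.1 h1

/-- powers of commutators modulo -/
theorem comm_pow (Z : Subgroup N) [Z.Normal] (x g : N)
    (hc : ∀ y, ⁅⁅x, g⁆, y⁆ ∈ Z) (m : ℕ) : ⁅x ^ m, g⁆ ∈ Z ↔ ⁅x, g⁆ ^ m ∈ Z := by
  have hcen : ∀ y : N ⧸ Z, ((⁅x, g⁆ : N) : N ⧸ Z) * y = y * ((⁅x, g⁆ : N) : N ⧸ Z) := by
    intro y
    obtain ⟨y, rfl⟩ := QuotientGroup.mk_surjective y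
    have h1 := (QuotientGroup.eq_one_iff (N := Z) _).2 (hc y)
    rw [commutatorElement_def] at h1
    have h2 : ((⁅x, g⁆ : N) : N ⧸ Z) * (y : N ⧸ Z) * ((⁅x, g⁆ : N) : N ⧸ Z)⁻¹ * (y : N ⧸ Z)⁻¹ = 1 :=
      h1
    rw [mul_inv_eq_one, mul_inv_eq_iff_eq_mul] at h2
    exact h2
  have key : ∀ m : ℕ, ((⁅x ^ m, g⁆ : N) : N ⧸ Z) = ((⁅x, g⁆ : N) : N ⧸ Z) ^ m := by
    intro m
    induction m with
    | zero => simp
    | succ m ih =>
      have h1 : ⁅x ^ (m + 1), g⁆ = x * ⁅x ^ m, g⁆ * x⁻¹ * ⁅x, g⁆ := by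
        simp only [commutatorElement_def, pow_succ']
        group
      rw [h1]
      have h2 : ((x * ⁅x ^ m, g⁆ * x⁻¹ * ⁅x, g⁆ : N) : N ⧸ Z) =
          (x : N ⧸ Z) * ((⁅x ^ m, g⁆ : N) : N ⧸ Z) * (x : N ⧸ Z)⁻¹ * ((⁅x, g⁆ : N) : N ⧸ Z) := rfl
      rw [h2, ih]
      have h3 : (x : N ⧸ Z) * ((⁅x, g⁆ : N) : N ⧸ Z) ^ m = ((⁅x, g⁆ : N) : N ⧸ Z) ^ m * x :=
        ((show Commute (x : N ⧸ Z) ((⁅x, g⁆ : N) : N ⧸ Z) from (hcen x).symm).pow_right m).eq
      rw [h3, mul_assoc _ (x : N ⧸ Z), mul_inv_cancel, mul_one, pow_succ]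
  rw [← QuotientGroup.eq_one_iff, ← QuotientGroup.eq_one_iff, key]
  rfl

end

/-- **Part NF.** -/
theorem nf (hMAX : S_MAX.{u}) (hCL : S_CL.{u}) : S_NF.{u} := by
  intro N _ _ hnil q hq B hB hBf hBp hess
  have := hnil
  -- the exponent of the centre
  obtain ⟨e, he⟩ : ∃ e : ℕ, ∀ z ∈ Subgroup.center N, z ^ q ^ e = 1 := by
    have hfg := hMAX N hnil (Subgroup.center N)
    have hfg' : Group.FG (Subgroup.center N) := (Group.fg_iff_subgroup_fg _).2 hfg
    have hP : IsPGroup q (Subgroup.center N) := by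
      rintro ⟨z, hz⟩
      obtain ⟨a, ha⟩ := center_qpow q B hBf hBp hess z hz
      exact ⟨a, Subtype.ext ha⟩
    obtain ⟨S, hS, hSf⟩ := (Subgroup.fg_iff _).1 hfg
    have hex : ∀ z : N, ∃ a, z ∈ Subgroup.center N → z ^ q ^ a = 1 := by
      intro z
      by_cases h : z ∈ Subgroup.center N
      · obtain ⟨a, ha⟩ := center_qpow q B hBf hBp hess z h
        exact ⟨a, fun _ => ha⟩
      · exact ⟨0, fun h' => absurd h' h⟩
    choose ν hν using hex
    refine ⟨hSf.toFinset.sup ν, ?_⟩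
    intro z hz
    rw [← hS] at hz
    have hSc : ∀ x ∈ S, x ∈ Subgroup.center N := fun x hx => by
      rw [← hS]; exact Subgroup.subset_closure hx
    have hall : z ∈ Subgroup.center N ∧ z ^ q ^ (hSf.toFinset.sup ν) = 1 := by
      induction hz using Subgroup.closure_induction with
      | mem x hx =>
        refine ⟨hSc x hx, ?_⟩
        have h1 : ν x ≤ hSf.toFinset.sup ν := Finset.le_sup (f := ν) (hSf.mem_toFinset.2 hx)
        obtain ⟨m, hm⟩ := Nat.exists_eq_add_of_le h1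
        rw [hm, pow_add, pow_mul, hν x (hSc x hx), one_pow]
      | one => exact ⟨one_mem _, one_pow _⟩
      | mul x y _ _ hx hy =>
        refine ⟨mul_mem hx.1 hy.1, ?_⟩
        have hcomm : Commute x y := (Subgroup.mem_center_iff.1 hy.1 x)
        rw [hcomm.mul_pow, hx.2, hy.2, one_mul]
      | inv x _ hx => exact ⟨inv_mem hx.1, by rw [inv_pow, hx.2, inv_one]⟩
    exact hall.2
  -- all factors
  have hstep : ∀ i, ∀ x ∈ Subgroup.upperCentralSeries N (i + 1),
      x ^ q ^ e ∈ Subgroup.upperCentralSeries N i := by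
    intro i
    induction i with
    | zero =>
      intro x hx
      rw [zero_add, Subgroup.upperCentralSeries_one] at hx
      rw [Subgroup.upperCentralSeries_zero, Subgroup.mem_bot]
      exact he x hx
    | succ i ih =>
      intro x hx
      rw [Subgroup.mem_upperCentralSeries_succ_iff] at hx ⊢
      intro g
      rw [comm_pow (Subgroup.upperCentralSeries N i) x g (fun y =>
        (Subgroup.mem_upperCentralSeries_succ_iff.1 (hx g)) y)]
      exact ih _ (hx g)
  obtain ⟨c, hc⟩ := Group.IsNilpotent.nilpotent N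
  have hexp : ∀ j, j ≤ c → ∀ x : N, x ^ (q ^ e) ^ j ∈ Subgroup.upperCentralSeries N (c - j) := by
    intro j
    induction j with
    | zero =>
      intro _ x
      rw [Nat.sub_zero, hc]; trivial
    | succ j ih =>
      intro hj x
      have h1 := ih (by omega) x
      have h2 : c - j = (c - (j + 1)) + 1 := by omega
      rw [h2] at h1
      have h3 := hstep _ _ h1
      rwa [← pow_mul, ← pow_succ] at h3
  have hP : IsPGroup q N := by
    intro x
    refine ⟨e * c, ?_⟩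
    have h1 := hexp c le_rfl x
    rw [Nat.sub_self, Subgroup.upperCentralSeries_zero, Subgroup.mem_bot] at h1
    rw [pow_mul]; exact h1
  refine ⟨?_, hP⟩
  have hfin : Finite (⊤ : Subgroup N) := by
    refine hCL N ⊥ inferInstance (fun Δ => Finite Δ) inferInstance ?_
    intro Δ hΔn _ hΔ z _
    have hz : (Subgroup.zpowers z : Set N).Finite := by
      obtain ⟨k, hk⟩ := hP z
      have hfo : IsOfFinOrder z := isOfFinOrder_iff_pow_eq_one.2 ⟨q ^ k, pow_pos hq.out.pos k, hk⟩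
      exact hfo.finite_zpowers
    have h1 : ((Δ ⊔ Subgroup.zpowers z : Subgroup N) : Set N) =
        (Δ : Set N) * (Subgroup.zpowers z : Set N) := by
      have := hΔn
      exact Subgroup.normal_mul Δ (Subgroup.zpowers z)
    have h2 : ((Δ ⊔ Subgroup.zpowers z : Subgroup N) : Set N).Finite := by
      rw [h1]
      have h3 : (Δ : Set N).Finite := Set.toFinite _
      exact h3.mul hz
    exact h2.to_subtype
  exact Finite.of_surjective (fun x : (⊤ : Subgroup N) => (x : N)) fun x => ⟨⟨x, trivial⟩, rfl⟩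

end Pool.Agent.Helper71.CN
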